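import Pool.Agent.MWC.Stmts

/-!
# MWC, row KYR (helper30)
-/

namespace Pool.Agent.MWC.H30

open Pool.Agent.Helper14_MV Pool.Agent.Helper2_MV Pool.Agent.MVO Pool.Agent.MWL Pool.Agent.MWC

/-- the reversed vector -/
def rv (k : ℕ) (a : ℕ → ℕ) : ℕ → ℕ := fun j => a (k - j)

theorem deg_rv (k : ℕ) (a : ℕ → ℕ) : deg k (rv k a) = deg k a := by
  unfold deg rv
  have h := Finset.sum_range_reflect a (k + 1)
  rw [← h]
  apply Finset.sum_congr rfl
  intro j _
  have : k + 1 - 1 - j = k - j := by omega
  rw [this]

theorem deg_congr {k : ℕ} {a b : ℕ → ℕ} (h : ∀ j ≤ k, a j = b j) : deg k a = deg k b := by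
  unfold deg
  apply Finset.sum_congr rfl
  intro j hj
  rw [Finset.mem_range] at hj
  exact h j (by omega)

structure Concl (n : ℕ) (R : FC) : Prop where
  a : ∀ (k : ℕ) (c c' : ℕ → ℕ), R.R k c c' →
      (∀ i ≤ k, ¬ Ab n R k c i → c i = c' i) ∧
      (∀ i ≤ k, Ab n R k c i ↔ Ab n R k c' i) ∧
      (2 ≤ deg k c → 2 ≤ deg k c')
  b : ∀ (k : ℕ) (a b : ℕ → ℕ), (∀ j ≤ k, a j = b j ∨ (2 ≤ a j ∧ 2 ≤ b j ∧ a j ≡ b j [MOD n])) →
      R.R k a b

theorem core (hT : TrnStmt) (hK : KeyStmt) (hA : AbsStmt) {n : ℕ} {R : FC} (hL : LR n R)
    (hN : ND R) : Concl n R := by
  refine ⟨?_, ?_⟩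
  · intro k c c' h
    refine ⟨fun i hi => hK n R hL hN k c c' h i hi, fun i _ => (hT n R k c i).1 c' h, ?_⟩
    intro h2
    by_contra h3
    have h4 := hN k c' c (R.symm h) (by omega)
    have h5 := deg_congr h4
    omega
  · intro k a b h
    apply (hA n R hL k a).2
    intro j hj
    rcases h j hj with h1 | ⟨h1, h2, h3⟩
    · exact Or.inl h1
    · exact Or.inr ⟨⟨by omega, j, le_refl j, h1⟩, ⟨by omega, j, le_refl j, h2⟩, h3⟩

theorem kyr (hT : TrnStmt) (hK : KeyStmt) (hA : AbsStmt) (hR : RevStmt) (hN : NdfStmt) :
    KyrStmt := by
  intro r n β hI hL
  have hND : ND (FC.ofFIC β) := by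
    apply hN β
    · intro h
      have := iso_ab hI (by decide) h
      exact absurd this (by decide)
    · intro j hj h
      have h1 := hI _ ((h.append (RR.refl (β := β) [1])).append h)
      have h2 := congrArg List.length h1
      simp only [List.length_append, List.length_replicate, List.length_cons,
        List.length_nil] at h2
      omega
  have key : Concl n (FC.ofFIC β) := by
    cases r with
    | false =>
      exact core hT hK hA hL hND
    | true =>
      have hL' : LRd n (FC.ofFIC β) := hL
      generalize FC.ofFIC β = R at hND hL'
      obtain ⟨R', hR'⟩ := hR R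
      have hLR : LR n R' := by
        refine ⟨hL'.pos, ?_, ?_⟩
        · rw [hR']
          refine R.ext ?_ ?_ hL'.per
          · intro j hj
            have : j = 0 := by omega
            subst this; rfl
          · intro j hj
            have : j = 0 := by omega
            subst this; rfl
        · rw [hR']
          refine R.ext ?_ ?_ hL'.rr
          · intro j hj
            have : j = 0 ∨ j = 1 := by omega
            rcases this with rfl | rfl <;> rfl
          · intro j hj
            have : j = 0 ∨ j = 1 := by omega
            rcases this with rfl | rfl <;> rfl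
      have hND' : ND R' := by
        intro k a b h hd j hj
        rw [hR'] at h
        have h1 := hND k (rv k a) (rv k b) h (by rw [deg_rv]; exact hd) (k - j) (by omega)
        unfold rv at h1
        have e : k - (k - j) = j := by omega
        rwa [e] at h1
      have C := core hT hK hA hLR hND'
      have hrr : ∀ (k : ℕ) (a b : ℕ → ℕ), R.R k a b ↔ R'.R k (rv k a) (rv k b) := by
        intro k a b
        rw [hR']
        constructor
        · intro h
          refine R.ext ?_ ?_ h
          · intro j hj
            unfold rv
            have e : k - (k - j) = j := by omega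
            simp only [e]
          · intro j hj
            unfold rv
            have e : k - (k - j) = j := by omega
            simp only [e]
        · intro h
          refine R.ext ?_ ?_ h
          · intro j hj
            unfold rv
            have e : k - (k - j) = j := by omega
            simp only [e]
          · intro j hj
            unfold rv
            have e : k - (k - j) = j := by omega
            simp only [e]
      have hab : ∀ (k : ℕ) (c : ℕ → ℕ) (i : ℕ), i ≤ k →
          (Ab n R k c i ↔ Ab n R' k (rv k c) (k - i)) := by
        intro k c i hi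
        unfold Pool.Agent.MWL.Ab
        rw [hrr]
        constructor
        · intro h
          refine R'.ext (fun j _ => rfl) ?_ h
          intro j hj
          unfold rv ad
          by_cases hj2 : k - j = i
          · rw [if_pos hj2, if_pos (by omega)]
          · rw [if_neg hj2, if_neg (by omega)]
        · intro h
          refine R'.ext (fun j _ => rfl) ?_ h
          intro j hj
          unfold rv ad
          by_cases hj2 : k - j = i
          · rw [if_pos hj2, if_pos (by omega)]
          · rw [if_neg hj2, if_neg (by omega)]
      refine ⟨?_, ?_⟩
      · intro k c c' h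
        obtain ⟨h1, h2, h3⟩ := C.a k _ _ ((hrr k c c').1 h)
        refine ⟨?_, ?_, ?_⟩
        · intro i hi hn
          rw [hab k c i hi] at hn
          have h4 := h1 (k - i) (by omega) hn
          unfold rv at h4
          have e : k - (k - i) = i := by omega
          rwa [e] at h4
        · intro i hi
          rw [hab k c i hi, hab k c' i hi]
          exact h2 (k - i) (by omega)
        · rw [deg_rv, deg_rv] at h3
          exact h3
      · intro k a b h
        rw [hrr]
        apply C.b
        intro j _
        exact h (k - j) (by omega)
  exact ⟨key.a, key.b⟩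

end Pool.Agent.MWC.H30
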